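import Mathlib

/-!
# A rigid `(21_4)` configuration of points and lines

All points and lines of the configuration have small integer homogeneous coordinates
(`P0`, `L0`). Fixing the points `0, 1, 2, 3` as the projective frame `e₁, e₂, e₃, (1,1,1)`,
a realization depends on two parameters `x, y` (one coordinate of two further points); all the
remaining points and lines are constructed by joins and meets, and two closing incidences
force `-2x + 1 = 0` and `-x - y = 0`. Hence the realization is unique up to projective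
transformations.
-/

namespace Pool.Agent.Results.MP_409c19_co.RigidConfiguration

/-- `ℝ³`: its one-dimensional subspaces are the points and its two-dimensional subspaces
are the lines of the real projective plane -/
abbrev E := Fin 3 → ℝ

/-- The subspaces `P i` (points) and `L j` (lines) of `ℝ³` are a geometric realization of the
incidence structure `I`: the `P i` are distinct points and the `L j` distinct lines of the real
projective plane, and point `i` lies on line `j` exactly when `I i j`. -/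
structure IsRealization {n : ℕ} (I : Fin n → Fin n → Prop) (P L : Fin n → Submodule ℝ E) :
    Prop where
  point_dim : ∀ i, Module.finrank ℝ (P i) = 1
  line_dim : ∀ j, Module.finrank ℝ (L j) = 2
  points_distinct : ∀ i i', P i = P i' → i = i'
  lines_distinct : ∀ j j', L j = L j' → j = j'
  incidence : ∀ i j, P i ≤ L j ↔ I i j

/-- every point is on exactly `k` lines and every line contains exactly `k` points -/
def IsRegular (k : ℕ) {n : ℕ} (I : Fin n → Fin n → Prop) : Prop :=
  (∀ i, {j | I i j}.ncard = k) ∧ ∀ j, {i | I i j}.ncard = k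

/-- some projective transformation (induced by a linear automorphism of `ℝ³`) carries each
point and line of the first realization to the corresponding one of the second -/
def ProjectivelyEquivalent {n : ℕ} (P L P' L' : Fin n → Submodule ℝ E) : Prop :=
  ∃ g : E ≃ₗ[ℝ] E, (∀ i, (P i).map (g : E →ₗ[ℝ] E) = P' i) ∧
    ∀ j, (L j).map (g : E →ₗ[ℝ] E) = L' j

/-- the combinatorial type `I` is realizable and all its geometric realizations form a single
projective equivalence class -/
def IsRigid {n : ℕ} (I : Fin n → Fin n → Prop) : Prop :=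
  (∃ P L, IsRealization I P L) ∧
    ∀ P L P' L', IsRealization I P L → IsRealization I P' L' →
      ProjectivelyEquivalent P L P' L'

/-! ### The configuration -/

/-- homogeneous coordinates of the 21 points -/
def P0 : Fin 21 → Fin 3 → ℤ :=
  ![![1, 0, 0],
    ![0, 1, 0],
    ![0, 0, 1],
    ![1, 1, 1],
    ![1, 0, 1],
    ![0, 2, 1],
    ![1, -1, 0],
    ![2, 0, 1],
    ![2, 1, 2],
    ![2, -1, 0],
    ![0, 1, 2],
    ![1, 1, 2],
    ![2, 2, 3],
    ![2, -5, -2],
    ![4, -4, -1],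
    ![1, -1, 2],
    ![5, 1, 4],
    ![2, 4, 7],
    ![4, 5, 8],
    ![1, -4, -4],
    ![1, 5, 5]]

/-- homogeneous coordinates of the 21 lines -/
def L0 : Fin 21 → Fin 3 → ℤ :=
  ![![1, 0, -1],
    ![0, 1, 0],
    ![0, 1, -1],
    ![1, -1, 0],
    ![1, 0, 0],
    ![0, 0, 1],
    ![1, 1, -2],
    ![1, 1, 0],
    ![2, 2, -3],
    ![0, 2, -1],
    ![1, 2, -2],
    ![1, 3, -2],
    ![2, 0, -1],
    ![1, -4, 2],
    ![1, 2, -4],
    ![5, 4, -5],
    ![4, 5, -4],
    ![4, 8, -7],
    ![5, 7, -8],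
    ![5, 1, -2],
    ![4, 2, -1]]

/-- the incidence relation -/
def I0 (i j : Fin 21) : Prop := P0 i 0 * L0 j 0 + P0 i 1 * L0 j 1 + P0 i 2 * L0 j 2 = 0

instance (i j : Fin 21) : Decidable (I0 i j) := by unfold I0; infer_instance

/-- vector data of a realization of the configuration -/
structure Vecs where
  p : Fin 21 → E
  l : Fin 21 → E
  pne : ∀ i, ¬ (p i 0 = 0 ∧ p i 1 = 0 ∧ p i 2 = 0)
  lne : ∀ i, ¬ (l i 0 = 0 ∧ l i 1 = 0 ∧ l i 2 = 0)
  pp : ∀ i i', i ≠ i' → ¬ (p i 1 * p i' 2 - p i 2 * p i' 1 = 0 ∧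
    p i 2 * p i' 0 - p i 0 * p i' 2 = 0 ∧ p i 0 * p i' 1 - p i 1 * p i' 0 = 0)
  ll : ∀ i i', i ≠ i' → ¬ (l i 1 * l i' 2 - l i 2 * l i' 1 = 0 ∧
    l i 2 * l i' 0 - l i 0 * l i' 2 = 0 ∧ l i 0 * l i' 1 - l i 1 * l i' 0 = 0)
  inc : ∀ i j, p i 0 * l j 0 + p i 1 * l j 1 + p i 2 * l j 2 = 0 ↔ I0 i j

/-- point `i` has homogeneous coordinates `(v0, v1, v2)` -/
def Vecs.IsPt (R : Vecs) (i : Fin 21) (v0 v1 v2 : ℝ) : Prop :=
  ∃ c : ℝ, c ≠ 0 ∧ R.p i 0 = c * v0 ∧ R.p i 1 = c * v1 ∧ R.p i 2 = c * v2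

/-- line `j` has homogeneous coordinates `(m0, m1, m2)` -/
def Vecs.IsLn (R : Vecs) (j : Fin 21) (m0 m1 m2 : ℝ) : Prop :=
  ∃ c : ℝ, c ≠ 0 ∧ R.l j 0 = c * m0 ∧ R.l j 1 = c * m1 ∧ R.l j 2 = c * m2

theorem par (a0 a1 a2 b0 b1 b2 c0 c1 c2 v0 v1 v2 w0 w1 w2 m0 m1 m2 s t g : ℝ)
    (ha0 : a0 = s * v0) (ha1 : a1 = s * v1) (ha2 : a2 = s * v2)
    (hb0 : b0 = t * w0) (hb1 : b1 = t * w1) (hb2 : b2 = t * w2)
    (hca : a0 * c0 + a1 * c1 + a2 * c2 = 0) (hcb : b0 * c0 + b1 * c1 + b2 * c2 = 0)
    (hc : ¬ (c0 = 0 ∧ c1 = 0 ∧ c2 = 0))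
    (hab : ¬ (a1 * b2 - a2 * b1 = 0 ∧ a2 * b0 - a0 * b2 = 0 ∧ a0 * b1 - a1 * b0 = 0))
    (e0 : v1 * w2 - v2 * w1 = g * m0) (e1 : v2 * w0 - v0 * w2 = g * m1)
    (e2 : v0 * w1 - v1 * w0 = g * m2) :
    ∃ r : ℝ, r ≠ 0 ∧ c0 = r * m0 ∧ c1 = r * m1 ∧ c2 = r * m2 := by
  have k0 : a1 * b2 - a2 * b1 = (s * t * g) * m0 := by
    rw [ha1, ha2, hb1, hb2]; linear_combination s * t * e0
  have k1 : a2 * b0 - a0 * b2 = (s * t * g) * m1 := by
    rw [ha0, ha2, hb0, hb2]; linear_combination s * t * e1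
  have k2 : a0 * b1 - a1 * b0 = (s * t * g) * m2 := by
    rw [ha0, ha1, hb0, hb1]; linear_combination s * t * e2
  set k := s * t * g with hk
  have hk0 : k ≠ 0 := by
    intro h
    rw [h] at k0 k1 k2
    exact hab ⟨by linarith, by linarith, by linarith⟩
  -- c × (a × b) = 0
  have x0 : c1 * m2 - c2 * m1 = 0 := by
    have : k * (c1 * m2 - c2 * m1) = 0 := by
      linear_combination (-c1) * k2 + c2 * k1 + a0 * hcb - b0 * hca
    rcases mul_eq_zero.mp this with h | h
    · exact absurd h hk0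
    · exact h
  have x1 : c2 * m0 - c0 * m2 = 0 := by
    have : k * (c2 * m0 - c0 * m2) = 0 := by
      linear_combination (-c2) * k0 + c0 * k2 + a1 * hcb - b1 * hca
    rcases mul_eq_zero.mp this with h | h
    · exact absurd h hk0
    · exact h
  have x2 : c0 * m1 - c1 * m0 = 0 := by
    have : k * (c0 * m1 - c1 * m0) = 0 := by
      linear_combination (-c0) * k1 + c1 * k0 + a2 * hcb - b2 * hca
    rcases mul_eq_zero.mp this with h | h
    · exact absurd h hk0
    · exact h
  by_cases h0 : m0 = 0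
  · by_cases h1 : m1 = 0
    · by_cases h2 : m2 = 0
      · rw [h0] at k0; rw [h1] at k1; rw [h2] at k2
        exact absurd ⟨by linarith, by linarith, by linarith⟩ hab
      · have d0 : c0 = 0 := by
          have : c0 * m2 = 0 := by rw [h0] at x1; linarith
          exact (mul_eq_zero.mp this).resolve_right h2
        have d1 : c1 = 0 := by
          have : c1 * m2 = 0 := by rw [h1] at x0; linarith
          exact (mul_eq_zero.mp this).resolve_right h2
        refine ⟨c2 / m2, ?_, ?_, ?_, ?_⟩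
        · intro h
          rcases div_eq_zero_iff.mp h with h | h
          · exact hc ⟨d0, d1, h⟩
          · exact h2 h
        · rw [h0, d0]; ring
        · rw [h1, d1]; ring
        · field_simp
    · refine ⟨c1 / m1, ?_, ?_, ?_, ?_⟩
      · intro h
        rcases div_eq_zero_iff.mp h with h | h
        · apply hc
          rw [h] at x0 x2
          refine ⟨?_, h, ?_⟩
          · have : c0 * m1 = 0 := by linarith
            exact (mul_eq_zero.mp this).resolve_right h1
          · have : c2 * m1 = 0 := by linarith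
            exact (mul_eq_zero.mp this).resolve_right h1
        · exact h1 h
      · field_simp; linarith
      · field_simp
      · field_simp; linarith
  · refine ⟨c0 / m0, ?_, ?_, ?_, ?_⟩
    · intro h
      rcases div_eq_zero_iff.mp h with h | h
      · apply hc
        rw [h] at x1 x2
        refine ⟨h, ?_, ?_⟩
        · have : c1 * m0 = 0 := by linarith
          exact (mul_eq_zero.mp this).resolve_right h0
        · have : c2 * m0 = 0 := by linarith
          exact (mul_eq_zero.mp this).resolve_right h0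
      · exact h0 h
    · field_simp
    · field_simp; linarith
    · field_simp; linarith

theorem Vecs.join (R : Vecs) {i i' j : Fin 21} {v0 v1 v2 w0 w1 w2 m0 m1 m2 g : ℝ}
    (hi : R.IsPt i v0 v1 v2) (hi' : R.IsPt i' w0 w1 w2) (hne : i ≠ i')
    (h : I0 i j) (h' : I0 i' j)
    (e0 : v1 * w2 - v2 * w1 = g * m0) (e1 : v2 * w0 - v0 * w2 = g * m1)
    (e2 : v0 * w1 - v1 * w0 = g * m2) : R.IsLn j m0 m1 m2 := by
  obtain ⟨s, _, a0, a1, a2⟩ := hi
  obtain ⟨t, _, b0, b1, b2⟩ := hi'
  exact par _ _ _ _ _ _ _ _ _ v0 v1 v2 w0 w1 w2 m0 m1 m2 s t g a0 a1 a2 b0 b1 b2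
    ((R.inc i j).mpr h) ((R.inc i' j).mpr h') (R.lne j) (R.pp i i' hne) e0 e1 e2

theorem Vecs.meet (R : Vecs) {j j' i : Fin 21} {v0 v1 v2 w0 w1 w2 m0 m1 m2 g : ℝ}
    (hj : R.IsLn j v0 v1 v2) (hj' : R.IsLn j' w0 w1 w2) (hne : j ≠ j')
    (h : I0 i j) (h' : I0 i j')
    (e0 : v1 * w2 - v2 * w1 = g * m0) (e1 : v2 * w0 - v0 * w2 = g * m1)
    (e2 : v0 * w1 - v1 * w0 = g * m2) : R.IsPt i m0 m1 m2 := by
  obtain ⟨s, _, a0, a1, a2⟩ := hj
  obtain ⟨t, _, b0, b1, b2⟩ := hj'
  have c1 := (R.inc i j).mpr h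
  have c2 := (R.inc i j').mpr h'
  exact par _ _ _ _ _ _ _ _ _ v0 v1 v2 w0 w1 w2 m0 m1 m2 s t g a0 a1 a2 b0 b1 b2
    (by linarith) (by linarith) (R.pne i) (R.ll j j' hne) e0 e1 e2

theorem Vecs.closing (R : Vecs) {i j : Fin 21} {v0 v1 v2 m0 m1 m2 : ℝ}
    (hi : R.IsPt i v0 v1 v2) (hj : R.IsLn j m0 m1 m2) (h : I0 i j) :
    v0 * m0 + v1 * m1 + v2 * m2 = 0 := by
  obtain ⟨s, hs, a0, a1, a2⟩ := hi
  obtain ⟨t, ht, b0, b1, b2⟩ := hj
  have c := (R.inc i j).mpr h
  rw [a0, a1, a2, b0, b1, b2] at c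
  have : (s * t) * (v0 * m0 + v1 * m1 + v2 * m2) = 0 := by linarith
  exact (mul_eq_zero.mp this).resolve_left (mul_ne_zero hs ht)

theorem Vecs.rescale (R : Vecs) {i : Fin 21} {v0 v1 v2 n0 n1 n2 : ℝ} (k : ℝ) (hk : k ≠ 0)
    (hi : R.IsPt i v0 v1 v2) (e0 : v0 = k * n0) (e1 : v1 = k * n1) (e2 : v2 = k * n2) :
    R.IsPt i n0 n1 n2 := by
  obtain ⟨s, hs, a0, a1, a2⟩ := hi
  exact ⟨s * k, mul_ne_zero hs hk, by rw [a0, e0]; ring, by rw [a1, e1]; ring,
    by rw [a2, e2]; ring⟩

theorem Vecs.chain (R : Vecs) (s_p0 : R.IsPt 0 1 0 0) (s_p1 : R.IsPt 1 0 1 0)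
    (s_p2 : R.IsPt 2 0 0 1) (s_p3 : R.IsPt 3 1 1 1) :
    R.IsPt 5 0 2 1 ∧ R.IsPt 8 2 1 2 := by
  have s_l0 : R.IsLn 0 (-1) 0 (1) :=
    R.join (g := (1)) s_p3 s_p1 (by decide) (by decide) (by decide) (by ring) (by ring) (by ring)
  have s_l1 : R.IsLn 1 0 (1) 0 :=
    R.join (g := (-1)) s_p0 s_p2 (by decide) (by decide) (by decide) (by ring) (by ring) (by ring)
  have s_l2 : R.IsLn 2 0 (-1) (1) :=
    R.join (g := (1)) s_p0 s_p3 (by decide) (by decide) (by decide) (by ring) (by ring) (by ring)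
  have s_l3 : R.IsLn 3 (1) (-1) 0 :=
    R.join (g := (1)) s_p3 s_p2 (by decide) (by decide) (by decide) (by ring) (by ring) (by ring)
  have s_l4 : R.IsLn 4 (1) 0 0 :=
    R.join (g := (1)) s_p1 s_p2 (by decide) (by decide) (by decide) (by ring) (by ring) (by ring)
  have s_l5 : R.IsLn 5 0 0 (1) :=
    R.join (g := (1)) s_p0 s_p1 (by decide) (by decide) (by decide) (by ring) (by ring) (by ring)
  have s_p4 : R.IsPt 4 (-1) 0 (-1) :=
    R.meet (g := (1)) s_l0 s_l1 (by decide) (by decide) (by decide) (by ring) (by ring) (by ring)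
  -- point 5 lies on line 4
  obtain ⟨x, s_p5⟩ : ∃ x, R.IsPt 5 0 1 x := by
    obtain ⟨c, hc, d0, d1, d2⟩ := s_l4
    obtain ⟨e, he, f0, f1, f2⟩ := s_p2
    have h1 := (R.inc 5 4).mpr (by decide)
    rw [d0, d1, d2] at h1
    have h2 : R.p 5 0 = 0 := by
      have : R.p 5 0 * c = 0 := by linarith
      exact (mul_eq_zero.mp this).resolve_right hc
    have h3 : R.p 5 1 ≠ 0 := by
      intro h
      refine R.pp 5 2 (by decide) ⟨?_, ?_, ?_⟩ <;> simp only [f0, f1, f2, h, h2] <;> ring
    exact ⟨R.p 5 2 / R.p 5 1, R.p 5 1, h3, by rw [h2]; ring, by ring, by field_simp⟩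
  have s_l6 : R.IsLn 6 (x - 1) (-x) (1) :=
    R.join (g := (1)) s_p3 s_p5 (by decide) (by decide) (by decide) (by ring) (by ring) (by ring)
  have s_p6 : R.IsPt 6 (-x) (-x + 1) 0 :=
    R.meet (g := (1)) s_l6 s_l5 (by decide) (by decide) (by decide) (by ring) (by ring) (by ring)
  have s_p7 : R.IsPt 7 (1) 0 (-x + 1) :=
    R.meet (g := (1)) s_l1 s_l6 (by decide) (by decide) (by decide) (by ring) (by ring) (by ring)
  have s_l7 : R.IsLn 7 (-x + 1) (x) 0 :=
    R.join (g := (1)) s_p6 s_p2 (by decide) (by decide) (by decide) (by ring) (by ring) (by ring)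
  -- point 8 lies on line 0
  obtain ⟨y, s_p8⟩ : ∃ y, R.IsPt 8 1 (y + 1) 1 := by
    obtain ⟨c, hc, d0, d1, d2⟩ := s_l0
    obtain ⟨e, he, f0, f1, f2⟩ := s_p1
    have h1 := (R.inc 8 0).mpr (by decide)
    rw [d0, d1, d2] at h1
    have h2 : R.p 8 0 = R.p 8 2 := by
      have : (R.p 8 2 - R.p 8 0) * c = 0 := by linarith
      have := (mul_eq_zero.mp this).resolve_right hc
      linarith
    have h3 : R.p 8 2 ≠ 0 := by
      intro h
      refine R.pp 8 1 (by decide) ⟨?_, ?_, ?_⟩ <;> simp only [f0, f1, f2, h2, h] <;> ring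
    refine ⟨R.p 8 1 / R.p 8 2 - 1, R.p 8 2, h3, by rw [h2]; ring, ?_, by ring⟩
    field_simp
    ring
  have s_l8 : R.IsLn 8 (-x + 1) (x) (-x * y - 1) :=
    R.join (g := (1)) s_p6 s_p8 (by decide) (by decide) (by decide) (by ring) (by ring) (by ring)
  have s_l9 : R.IsLn 9 0 (-1) (y + 1) :=
    R.join (g := (1)) s_p0 s_p8 (by decide) (by decide) (by decide) (by ring) (by ring) (by ring)
  have s_l10 : R.IsLn 10 (x * y + x - y - 1) (-x) (y + 1) :=
    R.join (g := (1)) s_p7 s_p8 (by decide) (by decide) (by decide) (by ring) (by ring) (by ring)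
  have s_p9 : R.IsPt 9 (-x) (-x * y - x + y + 1) 0 :=
    R.meet (g := (1)) s_l10 s_l5 (by decide) (by decide) (by decide) (by ring) (by ring) (by ring)
  have s_p10 : R.IsPt 10 0 (y + 1) (1) :=
    R.meet (g := (1)) s_l9 s_l4 (by decide) (by decide) (by decide) (by ring) (by ring) (by ring)
  have s_p11 : R.IsPt 11 (y + 1) (y + 1) (1) :=
    R.meet (g := (1)) s_l9 s_l3 (by decide) (by decide) (by decide) (by ring) (by ring) (by ring)
  have s_p12 : R.IsPt 12 (-y - 1) (-y - 1) (x * y - y - 1) :=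
    R.meet (g := (1)) s_l3 s_l10 (by decide) (by decide) (by decide) (by ring) (by ring) (by ring)
  have s_l11 : R.IsLn 11 (x * y + x - y - 1) (-x * y - x + y) (y + 1) :=
    R.join (g := (1)) s_p7 s_p11 (by decide) (by decide) (by decide) (by ring) (by ring) (by ring)
  have s_l12 : R.IsLn 12 (1) 0 (-y - 1) :=
    R.join (g := (1)) s_p1 s_p11 (by decide) (by decide) (by decide) (by ring) (by ring) (by ring)
  have s_l13 : R.IsLn 13 (x * y - y) (-1) (y + 1) :=
    R.join (g := (y + 1)) s_p10 s_p12 (by decide) (by decide) (by decide) (by ring) (by ring) (by ring)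
  have s_l14 : R.IsLn 14 (x * y + x - y - 1) (-x) (1) :=
    R.join (g := (x)) s_p5 s_p9 (by decide) (by decide) (by decide) (by ring) (by ring) (by ring)
  have s_p13 : R.IsPt 13 (-x ^ 2) (-x ^ 2 * y - x ^ 2 + x * y + 1) (-x ^ 2 + x) :=
    R.meet (g := (y)) s_l8 s_l14 (by decide) (by decide) (by decide) (by ring) (by ring) (by ring)
  have s_p14 : R.IsPt 14 (x) (x - 1) (-x ^ 2 * y + x * y) :=
    R.meet (g := (1)) s_l7 s_l14 (by decide) (by decide) (by decide) (by ring) (by ring) (by ring)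
  have s_p15 : R.IsPt 15 (x * y + x) (x * y + x - y - 1) (x) :=
    R.meet (g := (1)) s_l12 s_l7 (by decide) (by decide) (by decide) (by ring) (by ring) (by ring)
  have s_p17 : R.IsPt 17 (-y ^ 2 - 2 * y - 1) (-y - 1) (x * y ^ 2 + x * y - y ^ 2 - y - 1) :=
    R.meet (g := (x - 1)) s_l11 s_l13 (by decide) (by decide) (by decide) (by ring) (by ring) (by ring)
  have s_l15 : R.IsLn 15 (x ^ 2 * y + x ^ 2 - x * y - 1) (-x) (-x ^ 2 * y - x ^ 2 + x * y + 1) :=
    R.join (g := (1)) s_p13 s_p4 (by decide) (by decide) (by decide) (by ring) (by ring) (by ring)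
  have s_l16 : R.IsLn 16 (-x + 1) (x ^ 2 * y - x * y + x) (x - 1) :=
    R.join (g := (1)) s_p14 s_p4 (by decide) (by decide) (by decide) (by ring) (by ring) (by ring)
  have s_l19 : R.IsLn 19 (-x * y - x + y + 2) (x * y + x) (-y - 1) :=
    R.join (g := (x)) s_p5 s_p15 (by decide) (by decide) (by decide) (by ring) (by ring) (by ring)
  have s_p20 : R.IsPt 20 (-x ^ 2 * y - x ^ 2 + x * y - x + 1) (-x ^ 2 * y - x ^ 2 + x * y + 1) (-x ^ 2 * y - x ^ 2 + x * y + 1) :=
    R.meet (g := (1)) s_l15 s_l2 (by decide) (by decide) (by decide) (by ring) (by ring) (by ring)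
  have c1 := R.closing s_p20 s_l19 (by decide)
  have c2 := R.closing s_p17 s_l16 (by decide)
  have hx : x = 1 / 2 := by linear_combination (-1 / 2) * c1
  have hy : y = -1 / 2 := by linear_combination -c2 - hx
  subst hx
  subst hy
  exact ⟨R.rescale (1 / 2) (by norm_num) s_p5 (by norm_num) (by norm_num) (by norm_num),
    R.rescale (1 / 2) (by norm_num) s_p8 (by norm_num) (by norm_num) (by norm_num)⟩

theorem Vecs.numeric (R : Vecs) (n_p0 : R.IsPt 0 1 0 0) (n_p1 : R.IsPt 1 0 1 0)
    (n_p2 : R.IsPt 2 0 0 1) (n_p3 : R.IsPt 3 1 1 1) (n_p5 : R.IsPt 5 0 2 1)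
    (n_p8 : R.IsPt 8 2 1 2) :
    (∀ i, R.IsPt i (P0 i 0) (P0 i 1) (P0 i 2)) ∧ ∀ j, R.IsLn j (L0 j 0) (L0 j 1) (L0 j 2) := by
  have n_l0 : R.IsLn 0 (1) (0) (-1) :=
    R.join (g := -1) n_p3 n_p1 (by decide) (by decide) (by decide) (by norm_num) (by norm_num) (by norm_num)
  have n_l1 : R.IsLn 1 (0) (1) (0) :=
    R.join (g := -1) n_p0 n_p2 (by decide) (by decide) (by decide) (by norm_num) (by norm_num) (by norm_num)
  have n_l2 : R.IsLn 2 (0) (1) (-1) :=
    R.join (g := -1) n_p0 n_p3 (by decide) (by decide) (by decide) (by norm_num) (by norm_num) (by norm_num)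
  have n_l3 : R.IsLn 3 (1) (-1) (0) :=
    R.join (g := 1) n_p3 n_p2 (by decide) (by decide) (by decide) (by norm_num) (by norm_num) (by norm_num)
  have n_l4 : R.IsLn 4 (1) (0) (0) :=
    R.join (g := 1) n_p1 n_p2 (by decide) (by decide) (by decide) (by norm_num) (by norm_num) (by norm_num)
  have n_l5 : R.IsLn 5 (0) (0) (1) :=
    R.join (g := 1) n_p0 n_p1 (by decide) (by decide) (by decide) (by norm_num) (by norm_num) (by norm_num)
  have n_p4 : R.IsPt 4 (1) (0) (1) :=
    R.meet (g := 1) n_l0 n_l1 (by decide) (by decide) (by decide) (by norm_num) (by norm_num) (by norm_num)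
  have n_l6 : R.IsLn 6 (1) (1) (-2) :=
    R.join (g := -1) n_p3 n_p5 (by decide) (by decide) (by decide) (by norm_num) (by norm_num) (by norm_num)
  have n_p6 : R.IsPt 6 (1) (-1) (0) :=
    R.meet (g := 1) n_l6 n_l5 (by decide) (by decide) (by decide) (by norm_num) (by norm_num) (by norm_num)
  have n_p7 : R.IsPt 7 (2) (0) (1) :=
    R.meet (g := -1) n_l1 n_l6 (by decide) (by decide) (by decide) (by norm_num) (by norm_num) (by norm_num)
  have n_l7 : R.IsLn 7 (1) (1) (0) :=
    R.join (g := -1) n_p6 n_p2 (by decide) (by decide) (by decide) (by norm_num) (by norm_num) (by norm_num)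
  have n_l8 : R.IsLn 8 (2) (2) (-3) :=
    R.join (g := -1) n_p6 n_p8 (by decide) (by decide) (by decide) (by norm_num) (by norm_num) (by norm_num)
  have n_l9 : R.IsLn 9 (0) (2) (-1) :=
    R.join (g := -1) n_p0 n_p8 (by decide) (by decide) (by decide) (by norm_num) (by norm_num) (by norm_num)
  have n_l10 : R.IsLn 10 (1) (2) (-2) :=
    R.join (g := -1) n_p7 n_p8 (by decide) (by decide) (by decide) (by norm_num) (by norm_num) (by norm_num)
  have n_p9 : R.IsPt 9 (2) (-1) (0) :=
    R.meet (g := 1) n_l10 n_l5 (by decide) (by decide) (by decide) (by norm_num) (by norm_num) (by norm_num)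
  have n_p10 : R.IsPt 10 (0) (1) (2) :=
    R.meet (g := -1) n_l9 n_l4 (by decide) (by decide) (by decide) (by norm_num) (by norm_num) (by norm_num)
  have n_p11 : R.IsPt 11 (1) (1) (2) :=
    R.meet (g := -1) n_l9 n_l3 (by decide) (by decide) (by decide) (by norm_num) (by norm_num) (by norm_num)
  have n_p12 : R.IsPt 12 (2) (2) (3) :=
    R.meet (g := 1) n_l3 n_l10 (by decide) (by decide) (by decide) (by norm_num) (by norm_num) (by norm_num)
  have n_l11 : R.IsLn 11 (1) (3) (-2) :=
    R.join (g := -1) n_p7 n_p11 (by decide) (by decide) (by decide) (by norm_num) (by norm_num) (by norm_num)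
  have n_l12 : R.IsLn 12 (2) (0) (-1) :=
    R.join (g := 1) n_p1 n_p11 (by decide) (by decide) (by decide) (by norm_num) (by norm_num) (by norm_num)
  have n_l13 : R.IsLn 13 (1) (-4) (2) :=
    R.join (g := -1) n_p10 n_p12 (by decide) (by decide) (by decide) (by norm_num) (by norm_num) (by norm_num)
  have n_l14 : R.IsLn 14 (1) (2) (-4) :=
    R.join (g := 1) n_p5 n_p9 (by decide) (by decide) (by decide) (by norm_num) (by norm_num) (by norm_num)
  have n_p13 : R.IsPt 13 (2) (-5) (-2) :=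
    R.meet (g := -1) n_l8 n_l14 (by decide) (by decide) (by decide) (by norm_num) (by norm_num) (by norm_num)
  have n_p14 : R.IsPt 14 (4) (-4) (-1) :=
    R.meet (g := -1) n_l7 n_l14 (by decide) (by decide) (by decide) (by norm_num) (by norm_num) (by norm_num)
  have n_p15 : R.IsPt 15 (1) (-1) (2) :=
    R.meet (g := 1) n_l12 n_l7 (by decide) (by decide) (by decide) (by norm_num) (by norm_num) (by norm_num)
  have n_p16 : R.IsPt 16 (5) (1) (4) :=
    R.meet (g := -1) n_l11 n_l8 (by decide) (by decide) (by decide) (by norm_num) (by norm_num) (by norm_num)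
  have n_p17 : R.IsPt 17 (2) (4) (7) :=
    R.meet (g := -1) n_l11 n_l13 (by decide) (by decide) (by decide) (by norm_num) (by norm_num) (by norm_num)
  have n_p18 : R.IsPt 18 (4) (5) (8) :=
    R.meet (g := -1) n_l12 n_l13 (by decide) (by decide) (by decide) (by norm_num) (by norm_num) (by norm_num)
  have n_l15 : R.IsLn 15 (5) (4) (-5) :=
    R.join (g := -1) n_p13 n_p4 (by decide) (by decide) (by decide) (by norm_num) (by norm_num) (by norm_num)
  have n_l16 : R.IsLn 16 (4) (5) (-4) :=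
    R.join (g := -1) n_p14 n_p4 (by decide) (by decide) (by decide) (by norm_num) (by norm_num) (by norm_num)
  have n_l17 : R.IsLn 17 (4) (8) (-7) :=
    R.join (g := -1) n_p9 n_p16 (by decide) (by decide) (by decide) (by norm_num) (by norm_num) (by norm_num)
  have n_l18 : R.IsLn 18 (5) (7) (-8) :=
    R.join (g := -3) n_p14 n_p16 (by decide) (by decide) (by decide) (by norm_num) (by norm_num) (by norm_num)
  have n_l19 : R.IsLn 19 (5) (1) (-2) :=
    R.join (g := 1) n_p5 n_p15 (by decide) (by decide) (by decide) (by norm_num) (by norm_num) (by norm_num)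
  have n_l20 : R.IsLn 20 (4) (2) (-1) :=
    R.join (g := -3) n_p13 n_p15 (by decide) (by decide) (by decide) (by norm_num) (by norm_num) (by norm_num)
  have n_p19 : R.IsPt 19 (1) (-4) (-4) :=
    R.meet (g := -1) n_l16 n_l2 (by decide) (by decide) (by decide) (by norm_num) (by norm_num) (by norm_num)
  have n_p20 : R.IsPt 20 (1) (5) (5) :=
    R.meet (g := 1) n_l15 n_l2 (by decide) (by decide) (by decide) (by norm_num) (by norm_num) (by norm_num)
  constructor
  · intro i
    fin_cases i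
    · simpa [P0] using n_p0
    · simpa [P0] using n_p1
    · simpa [P0] using n_p2
    · simpa [P0] using n_p3
    · simpa [P0] using n_p4
    · simpa [P0] using n_p5
    · simpa [P0] using n_p6
    · simpa [P0] using n_p7
    · simpa [P0] using n_p8
    · simpa [P0] using n_p9
    · simpa [P0] using n_p10
    · simpa [P0] using n_p11
    · simpa [P0] using n_p12
    · simpa [P0] using n_p13
    · simpa [P0] using n_p14
    · simpa [P0] using n_p15
    · simpa [P0] using n_p16
    · simpa [P0] using n_p17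
    · simpa [P0] using n_p18
    · simpa [P0] using n_p19
    · simpa [P0] using n_p20
  · intro j
    fin_cases j
    · simpa [L0] using n_l0
    · simpa [L0] using n_l1
    · simpa [L0] using n_l2
    · simpa [L0] using n_l3
    · simpa [L0] using n_l4
    · simpa [L0] using n_l5
    · simpa [L0] using n_l6
    · simpa [L0] using n_l7
    · simpa [L0] using n_l8
    · simpa [L0] using n_l9
    · simpa [L0] using n_l10
    · simpa [L0] using n_l11
    · simpa [L0] using n_l12
    · simpa [L0] using n_l13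
    · simpa [L0] using n_l14
    · simpa [L0] using n_l15
    · simpa [L0] using n_l16
    · simpa [L0] using n_l17
    · simpa [L0] using n_l18
    · simpa [L0] using n_l19
    · simpa [L0] using n_l20

/-! ### Linear algebra -/

/-- the linear functional with coefficient vector `m` -/
def fun3 (m : E) : E →ₗ[ℝ] ℝ :=
  m 0 • LinearMap.proj 0 + m 1 • LinearMap.proj 1 + m 2 • LinearMap.proj 2

theorem fun3_apply (m v : E) : fun3 m v = m 0 * v 0 + m 1 * v 1 + m 2 * v 2 := by
  simp [fun3]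

theorem fun3_ne {m : E} (h : ¬ (m 0 = 0 ∧ m 1 = 0 ∧ m 2 = 0)) : fun3 m ≠ 0 := by
  intro h0
  apply h
  have e0 := congrArg (fun f : E →ₗ[ℝ] ℝ => f (Pi.single 0 1)) h0
  have e1 := congrArg (fun f : E →ₗ[ℝ] ℝ => f (Pi.single 1 1)) h0
  have e2 := congrArg (fun f : E →ₗ[ℝ] ℝ => f (Pi.single 2 1)) h0
  simp only [fun3_apply] at e0 e1 e2
  refine ⟨?_, ?_, ?_⟩
  · simpa using e0
  · simpa using e1
  · simpa using e2

theorem finrank_ker {m : E} (h : ¬ (m 0 = 0 ∧ m 1 = 0 ∧ m 2 = 0)) :
    Module.finrank ℝ (LinearMap.ker (fun3 m)) = 2 := by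
  have h1 := Module.Dual.finrank_ker_add_one_of_ne_zero (f := fun3 m) (fun3_ne h)
  have h2 : Module.finrank ℝ E = 3 := by simp
  rw [h2] at h1
  omega

theorem exists_point {P : Submodule ℝ E} (h : Module.finrank ℝ P = 1) :
    ∃ v : E, ¬ (v 0 = 0 ∧ v 1 = 0 ∧ v 2 = 0) ∧ P = Submodule.span ℝ {v} := by
  obtain ⟨v, hv, hspan⟩ := finrank_eq_one_iff'.mp h
  refine ⟨v, ?_, ?_⟩
  · rintro ⟨h0, h1, h2⟩
    apply hv
    ext k
    fin_cases k
    · exact h0
    · exact h1
    · exact h2
  · apply le_antisymm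
    · intro w hw
      obtain ⟨c, hc⟩ := hspan ⟨w, hw⟩
      rw [Submodule.mem_span_singleton]
      exact ⟨c, congrArg Subtype.val hc⟩
    · rw [Submodule.span_singleton_le_iff_mem]
      exact v.2

theorem exists_line {L : Submodule ℝ E} (h : Module.finrank ℝ L = 2) :
    ∃ m : E, ¬ (m 0 = 0 ∧ m 1 = 0 ∧ m 2 = 0) ∧ L = LinearMap.ker (fun3 m) := by
  have hlt : L < ⊤ := by
    rw [lt_top_iff_ne_top]
    intro h'
    rw [h', finrank_top] at h
    simp at h
  obtain ⟨f, hf, hle⟩ := Submodule.exists_le_ker_of_lt_top L hlt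
  set m : E := fun k => f (Pi.single k 1) with hm
  have hfm : f = fun3 m := by
    apply LinearMap.pi_ext'
    intro k
    ext
    fin_cases k <;> simp [fun3, hm]
  have hne : ¬ (m 0 = 0 ∧ m 1 = 0 ∧ m 2 = 0) := by
    rintro ⟨h0, h1, h2⟩
    apply hf
    rw [hfm]
    ext v
    simp [fun3_apply, h0, h1, h2]
  refine ⟨m, hne, ?_⟩
  rw [← hfm]
  apply Submodule.eq_of_le_of_finrank_eq hle
  rw [hfm, finrank_ker hne, h]

theorem span_le_ker (v m : E) :
    Submodule.span ℝ {v} ≤ LinearMap.ker (fun3 m) ↔ v 0 * m 0 + v 1 * m 1 + v 2 * m 2 = 0 := by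
  rw [Submodule.span_singleton_le_iff_mem, LinearMap.mem_ker, fun3_apply]
  constructor <;> intro h <;> linarith

/-- parallel nonzero vectors span the same line -/
theorem parallel {a b : E} (ha : ¬ (a 0 = 0 ∧ a 1 = 0 ∧ a 2 = 0))
    (hb : ¬ (b 0 = 0 ∧ b 1 = 0 ∧ b 2 = 0))
    (h : a 1 * b 2 - a 2 * b 1 = 0 ∧ a 2 * b 0 - a 0 * b 2 = 0 ∧ a 0 * b 1 - a 1 * b 0 = 0) :
    ∃ c : ℝ, c ≠ 0 ∧ a = c • b := by
  obtain ⟨h0, h1, h2⟩ := h
  by_cases b0 : b 0 = 0
  · by_cases b1 : b 1 = 0
    · have b2 : b 2 ≠ 0 := fun h => hb ⟨b0, b1, h⟩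
      have a1 : a 1 = 0 := by
        have : a 1 * b 2 = 0 := by rw [b1] at h0; linarith
        exact (mul_eq_zero.mp this).resolve_right b2
      have a0 : a 0 = 0 := by
        have : a 0 * b 2 = 0 := by rw [b0] at h1; linarith
        exact (mul_eq_zero.mp this).resolve_right b2
      refine ⟨a 2 / b 2, ?_, ?_⟩
      · intro h
        rcases div_eq_zero_iff.mp h with h | h
        · exact ha ⟨a0, a1, h⟩
        · exact b2 h
      · ext k
        fin_cases k
        · simp [a0, b0]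
        · simp [a1, b1]
        · simp only [Pi.smul_apply, smul_eq_mul]
          show a 2 = a 2 / b 2 * b 2
          field_simp
    · refine ⟨a 1 / b 1, ?_, ?_⟩
      · intro h
        rcases div_eq_zero_iff.mp h with h | h
        · rw [h] at h0 h2
          apply ha
          refine ⟨?_, h, ?_⟩
          · have : a 0 * b 1 = 0 := by linarith
            exact (mul_eq_zero.mp this).resolve_right b1
          · have : a 2 * b 1 = 0 := by linarith
            exact (mul_eq_zero.mp this).resolve_right b1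
        · exact b1 h
      · ext k
        fin_cases k
        · show a 0 = a 1 / b 1 * b 0
          field_simp
          linarith
        · show a 1 = a 1 / b 1 * b 1
          field_simp
        · show a 2 = a 1 / b 1 * b 2
          field_simp
          linarith
  · refine ⟨a 0 / b 0, ?_, ?_⟩
    · intro h
      rcases div_eq_zero_iff.mp h with h | h
      · rw [h] at h1 h2
        apply ha
        refine ⟨h, ?_, ?_⟩
        · have : a 1 * b 0 = 0 := by linarith
          exact (mul_eq_zero.mp this).resolve_right b0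
        · have : a 2 * b 0 = 0 := by linarith
          exact (mul_eq_zero.mp this).resolve_right b0
      · exact b0 h
    · ext k
      fin_cases k
      · show a 0 = a 0 / b 0 * b 0
        field_simp
      · show a 1 = a 0 / b 0 * b 1
        field_simp
        linarith
      · show a 2 = a 0 / b 0 * b 2
        field_simp
        linarith

theorem span_smul {a b : E} {c : ℝ} (hc : c ≠ 0) (h : a = c • b) :
    Submodule.span ℝ {a} = Submodule.span ℝ {b} := by
  rw [h]
  exact Submodule.span_singleton_smul_eq (IsUnit.mk0 c hc) b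

theorem ker_smul {a b : E} {c : ℝ} (hc : c ≠ 0) (h : a = c • b) :
    LinearMap.ker (fun3 a) = LinearMap.ker (fun3 b) := by
  ext v
  rw [LinearMap.mem_ker, LinearMap.mem_ker, fun3_apply, fun3_apply, h]
  simp only [Pi.smul_apply, smul_eq_mul]
  constructor
  · intro h'
    have : c * (b 0 * v 0 + b 1 * v 1 + b 2 * v 2) = 0 := by linarith
    exact (mul_eq_zero.mp this).resolve_left hc
  · intro h'
    have : c * (b 0 * v 0 + b 1 * v 1 + b 2 * v 2) = 0 := by rw [h', mul_zero]
    linarith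

/-- vector data of a realization -/
theorem exists_vecs {P L : Fin 21 → Submodule ℝ E} (H : IsRealization I0 P L) :
    ∃ R : Vecs, (∀ i, P i = Submodule.span ℝ {R.p i}) ∧ ∀ j, L j = LinearMap.ker (fun3 (R.l j)) := by
  choose p hp hP using fun i => exists_point (H.point_dim i)
  choose l hl hL using fun j => exists_line (H.line_dim j)
  refine ⟨⟨p, l, hp, hl, ?_, ?_, ?_⟩, hP, hL⟩
  · intro i i' hne h
    obtain ⟨c, hc, hab⟩ := parallel (hp i) (hp i') h
    exact hne (H.points_distinct i i' (by rw [hP i, hP i', span_smul hc hab]))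
  · intro j j' hne h
    obtain ⟨c, hc, hab⟩ := parallel (hl j) (hl j') h
    exact hne (H.lines_distinct j j' (by rw [hL j, hL j', ker_smul hc hab]))
  · intro i j
    rw [← span_le_ker, ← hP i, ← hL j]
    exact H.incidence i j

theorem IsRealization.map {n : ℕ} {I : Fin n → Fin n → Prop} {P L : Fin n → Submodule ℝ E}
    (H : IsRealization I P L) (g : E ≃ₗ[ℝ] E) :
    IsRealization I (fun i => (P i).map (g : E →ₗ[ℝ] E)) (fun j => (L j).map (g : E →ₗ[ℝ] E)) := by
  have hinj : Function.Injective (g : E →ₗ[ℝ] E) := g.injective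
  refine ⟨fun i => ?_, fun j => ?_, fun i i' h => ?_, fun j j' h => ?_, fun i j => ?_⟩
  · exact (LinearEquiv.finrank_map_eq g (P i)).trans (H.point_dim i)
  · exact (LinearEquiv.finrank_map_eq g (L j)).trans (H.line_dim j)
  · exact H.points_distinct i i' (Submodule.map_injective_of_injective hinj h)
  · exact H.lines_distinct j j' (Submodule.map_injective_of_injective hinj h)
  · rw [← H.incidence i j]
    exact Submodule.map_le_map_iff_of_injective hinj _ _

/-- real coordinates of the standard points -/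
def vP (i : Fin 21) : E := fun k => (P0 i k : ℝ)

/-- real coordinates of the standard lines -/
def vL (j : Fin 21) : E := fun k => (L0 j k : ℝ)

theorem vP_ne (i : Fin 21) : ¬ (vP i 0 = 0 ∧ vP i 1 = 0 ∧ vP i 2 = 0) := by
  simp only [vP, Int.cast_eq_zero]
  revert i
  decide +kernel

theorem vL_ne (i : Fin 21) : ¬ (vL i 0 = 0 ∧ vL i 1 = 0 ∧ vL i 2 = 0) := by
  simp only [vL, Int.cast_eq_zero]
  revert i
  decide +kernel

theorem P0_cross : ∀ i i' : Fin 21, i ≠ i' → ¬ (P0 i 1 * P0 i' 2 - P0 i 2 * P0 i' 1 = 0 ∧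
    P0 i 2 * P0 i' 0 - P0 i 0 * P0 i' 2 = 0 ∧ P0 i 0 * P0 i' 1 - P0 i 1 * P0 i' 0 = 0) := by
  decide +kernel

theorem L0_cross : ∀ i i' : Fin 21, i ≠ i' → ¬ (L0 i 1 * L0 i' 2 - L0 i 2 * L0 i' 1 = 0 ∧
    L0 i 2 * L0 i' 0 - L0 i 0 * L0 i' 2 = 0 ∧ L0 i 0 * L0 i' 1 - L0 i 1 * L0 i' 0 = 0) := by
  decide +kernel

theorem standard : IsRealization I0 (fun i => Submodule.span ℝ {vP i})
    (fun j => LinearMap.ker (fun3 (vL j))) := by
  refine ⟨fun i => ?_, fun j => finrank_ker (vL_ne j), fun i i' h => ?_, fun j j' h => ?_,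
    fun i j => ?_⟩
  · apply finrank_span_singleton
    intro h
    apply vP_ne i
    rw [h]
    simp
  · by_contra hne
    apply P0_cross i i' hne
    have h1 : vP i ∈ Submodule.span ℝ {vP i'} := by
      rw [← h]
      exact Submodule.mem_span_singleton_self _
    obtain ⟨c, hc⟩ := Submodule.mem_span_singleton.mp h1
    have e0 : (P0 i 0 : ℝ) = c * P0 i' 0 := (congrFun hc 0).symm
    have e1 : (P0 i 1 : ℝ) = c * P0 i' 1 := (congrFun hc 1).symm
    have e2 : (P0 i 2 : ℝ) = c * P0 i' 2 := (congrFun hc 2).symm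
    refine ⟨?_, ?_, ?_⟩
    · have : ((P0 i 1 * P0 i' 2 - P0 i 2 * P0 i' 1 : ℤ) : ℝ) = 0 := by
        push_cast; rw [e1, e2]; ring
      exact_mod_cast this
    · have : ((P0 i 2 * P0 i' 0 - P0 i 0 * P0 i' 2 : ℤ) : ℝ) = 0 := by
        push_cast; rw [e0, e2]; ring
      exact_mod_cast this
    · have : ((P0 i 0 * P0 i' 1 - P0 i 1 * P0 i' 0 : ℤ) : ℝ) = 0 := by
        push_cast; rw [e0, e1]; ring
      exact_mod_cast this
  · by_contra hne
    apply L0_cross j j' hne
    -- the vectors orthogonal to `vL j` are orthogonal to `vL j'`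
    have key : ∀ v : E, vL j 0 * v 0 + vL j 1 * v 1 + vL j 2 * v 2 = 0 →
        vL j' 0 * v 0 + vL j' 1 * v 1 + vL j' 2 * v 2 = 0 := by
      intro v hv
      have h1 : v ∈ LinearMap.ker (fun3 (vL j)) := by
        rw [LinearMap.mem_ker, fun3_apply]; exact hv
      have h2 : v ∈ LinearMap.ker (fun3 (vL j')) := by
        have h' : LinearMap.ker (fun3 (vL j)) = LinearMap.ker (fun3 (vL j')) := h
        rw [← h']; exact h1
      rw [LinearMap.mem_ker, fun3_apply] at h2
      exact h2
    have k0 := key ![0, vL j 2, -vL j 1] (by simp; ring)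
    have k1 := key ![-vL j 2, 0, vL j 0] (by simp; ring)
    have k2 := key ![vL j 1, -vL j 0, 0] (by simp; ring)
    simp [vL] at k0 k1 k2
    refine ⟨?_, ?_, ?_⟩
    · have : ((L0 j 1 * L0 j' 2 - L0 j 2 * L0 j' 1 : ℤ) : ℝ) = 0 := by
        push_cast; linarith
      exact_mod_cast this
    · have : ((L0 j 2 * L0 j' 0 - L0 j 0 * L0 j' 2 : ℤ) : ℝ) = 0 := by
        push_cast; linarith
      exact_mod_cast this
    · have : ((L0 j 0 * L0 j' 1 - L0 j 1 * L0 j' 0 : ℤ) : ℝ) = 0 := by
        push_cast; linarith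
      exact_mod_cast this
  · show Submodule.span ℝ {vP i} ≤ LinearMap.ker (fun3 (vL j)) ↔ I0 i j
    rw [span_le_ker]
    unfold I0 vP vL
    constructor
    · intro h
      exact_mod_cast h
    · intro h
      exact_mod_cast h

/-- a realization whose frame is the standard one is the standard realization -/
theorem unique_of_frame {P L : Fin 21 → Submodule ℝ E} (H : IsRealization I0 P L)
    (h0 : P 0 = Submodule.span ℝ {![1, 0, 0]}) (h1 : P 1 = Submodule.span ℝ {![0, 1, 0]})
    (h2 : P 2 = Submodule.span ℝ {![0, 0, 1]}) (h3 : P 3 = Submodule.span ℝ {![1, 1, 1]}) :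
    (∀ i, P i = Submodule.span ℝ {vP i}) ∧ ∀ j, L j = LinearMap.ker (fun3 (vL j)) := by
  obtain ⟨R, hP, hL⟩ := exists_vecs H
  have key : ∀ (i : Fin 21) (a b c : ℝ), P i = Submodule.span ℝ {![a, b, c]} →
      R.IsPt i a b c := by
    intro i a b c h
    have h' : R.p i ∈ Submodule.span ℝ {![a, b, c]} := by
      rw [← h, hP i]
      exact Submodule.mem_span_singleton_self _
    obtain ⟨t, ht⟩ := Submodule.mem_span_singleton.mp h'
    have e0 : R.p i 0 = t * a := (congrFun ht 0).symm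
    have e1 : R.p i 1 = t * b := (congrFun ht 1).symm
    have e2 : R.p i 2 = t * c := (congrFun ht 2).symm
    refine ⟨t, ?_, e0, e1, e2⟩
    intro h0
    rw [h0] at e0 e1 e2
    exact R.pne i ⟨by rw [e0]; ring, by rw [e1]; ring, by rw [e2]; ring⟩
  have s0 := key 0 _ _ _ h0
  have s1 := key 1 _ _ _ h1
  have s2 := key 2 _ _ _ h2
  have s3 := key 3 _ _ _ h3
  obtain ⟨s5, s8⟩ := R.chain s0 s1 s2 s3
  obtain ⟨hp, hl⟩ := R.numeric s0 s1 s2 s3 s5 s8
  constructor
  · intro i
    obtain ⟨c, hc, e0, e1, e2⟩ := hp i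
    rw [hP i]
    apply span_smul hc
    ext k
    fin_cases k
    · exact e0
    · exact e1
    · exact e2
  · intro j
    obtain ⟨c, hc, e0, e1, e2⟩ := hl j
    rw [hL j]
    apply ker_smul hc
    ext k
    fin_cases k
    · exact e0
    · exact e1
    · exact e2

/-- every realization can be moved to the standard one -/
theorem normalize {P L : Fin 21 → Submodule ℝ E} (H : IsRealization I0 P L) :
    ∃ g : E ≃ₗ[ℝ] E, (∀ i, (P i).map (g : E →ₗ[ℝ] E) = Submodule.span ℝ {vP i}) ∧
      ∀ j, (L j).map (g : E →ₗ[ℝ] E) = LinearMap.ker (fun3 (vL j)) := by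
  obtain ⟨R, hP, hL⟩ := exists_vecs H
  set A := R.p 0 with hA
  set B := R.p 1 with hB
  set C := R.p 2 with hC
  set D := R.p 3 with hD
  -- the functionals of the lines 12, 02, 01
  have fz : ∀ i j, I0 i j → fun3 (R.l j) (R.p i) = 0 := by
    intro i j h
    rw [fun3_apply]
    have := (R.inc i j).mpr h
    linarith
  have fn : ∀ i j, ¬ I0 i j → fun3 (R.l j) (R.p i) ≠ 0 := by
    intro i j h h'
    apply h
    rw [fun3_apply] at h'
    exact (R.inc i j).mp (by linarith)
  have a4 := fn 0 4 (by decide)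
  have b4 := fz 1 4 (by decide)
  have c4 := fz 2 4 (by decide)
  have d4 := fn 3 4 (by decide)
  have a1 := fz 0 1 (by decide)
  have b1 := fn 1 1 (by decide)
  have c1 := fz 2 1 (by decide)
  have d1 := fn 3 1 (by decide)
  have a5 := fz 0 5 (by decide)
  have b5 := fz 1 5 (by decide)
  have c5 := fn 2 5 (by decide)
  have d5 := fn 3 5 (by decide)
  rw [← hA] at a4 a1 a5
  rw [← hB] at b4 b1 b5
  rw [← hC] at c4 c1 c5
  rw [← hD] at d4 d1 d5
  have indep : ∀ α β γ : ℝ, α ≠ 0 → β ≠ 0 → γ ≠ 0 →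
      LinearIndependent ℝ ![α • A, β • B, γ • C] := by
    intro α β γ hα hβ hγ
    rw [Fintype.linearIndependent_iff]
    intro c hc
    rw [Fin.sum_univ_three] at hc
    simp only [Matrix.cons_val_zero, Matrix.cons_val_one, Matrix.cons_val_two,
      Matrix.head_cons, Matrix.tail_cons, Matrix.cons_val] at hc
    have t4 := congrArg (fun3 (R.l 4)) hc
    have t1 := congrArg (fun3 (R.l 1)) hc
    have t5 := congrArg (fun3 (R.l 5)) hc
    simp only [map_add, map_smul, smul_eq_mul, a4, b4, c4, a1, b1, c1, a5, b5, c5, map_zero,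
      mul_zero, add_zero, zero_add] at t4 t1 t5
    intro k
    fin_cases k
    · exact (mul_eq_zero.mp t4).resolve_right (mul_ne_zero hα a4)
    · exact (mul_eq_zero.mp t1).resolve_right (mul_ne_zero hβ b1)
    · exact (mul_eq_zero.mp t5).resolve_right (mul_ne_zero hγ c5)
  have hcard : Fintype.card (Fin 3) = Module.finrank ℝ E := by simp
  -- coordinates of the fourth point
  obtain ⟨α, β, γ, hα, hβ, hγ, hsum⟩ : ∃ α β γ : ℝ, α ≠ 0 ∧ β ≠ 0 ∧ γ ≠ 0 ∧
      D = α • A + β • B + γ • C := by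
    let b0 := basisOfLinearIndependentOfCardEqFinrank
      (indep 1 1 1 one_ne_zero one_ne_zero one_ne_zero) hcard
    have hb0 : b0 0 = A := by simp [b0]
    have hb1 : b0 1 = B := by simp [b0]
    have hb2 : b0 2 = C := by simp [b0]
    have hD' := b0.sum_repr D
    rw [Fin.sum_univ_three, hb0, hb1, hb2] at hD'
    obtain ⟨α, hα⟩ : ∃ α, α = b0.repr D 0 := ⟨_, rfl⟩
    obtain ⟨β, hβ⟩ : ∃ β, β = b0.repr D 1 := ⟨_, rfl⟩
    obtain ⟨γ, hγ⟩ : ∃ γ, γ = b0.repr D 2 := ⟨_, rfl⟩
    rw [← hα, ← hβ, ← hγ] at hD'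
    have hD2 : D = α • A + β • B + γ • C := hD'.symm
    refine ⟨α, β, γ, ?_, ?_, ?_, hD2⟩
    · intro h
      apply d4
      rw [hD2, h]
      simp [b4, c4]
    · intro h
      apply d1
      rw [hD2, h]
      simp [a1, c1]
    · intro h
      apply d5
      rw [hD2, h]
      simp [a5, b5]
  let b := basisOfLinearIndependentOfCardEqFinrank (indep α β γ hα hβ hγ) hcard
  let g : E ≃ₗ[ℝ] E := b.equivFun
  have gb : ∀ k, g (b k) = Pi.single k 1 := by
    intro k
    ext l
    show b.equivFun (b k) l = _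
    rw [Module.Basis.equivFun_self]
    simp [Pi.single_apply, eq_comm]
  have b0 : b 0 = α • A := by simp [b]
  have b1' : b 1 = β • B := by simp [b]
  have b2 : b 2 = γ • C := by simp [b]
  have mapspan : ∀ v : E, (Submodule.span ℝ {v}).map (g : E →ₗ[ℝ] E) =
      Submodule.span ℝ {g v} := by
    intro v
    rw [Submodule.map_span, Set.image_singleton]
    rfl
  have hg0 : g (α • A) = ![1, 0, 0] := by
    rw [← b0, gb]
    ext l; fin_cases l <;> simp
  have hg1 : g (β • B) = ![0, 1, 0] := by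
    rw [← b1', gb]
    ext l; fin_cases l <;> simp
  have hg2 : g (γ • C) = ![0, 0, 1] := by
    rw [← b2, gb]
    ext l; fin_cases l <;> simp
  have hg3 : g D = ![1, 1, 1] := by
    rw [hsum, map_add, map_add, hg0, hg1, hg2]
    ext l; fin_cases l <;> simp
  refine ⟨g, ?_⟩
  refine unique_of_frame (H.map g) ?_ ?_ ?_ ?_
  · show (P 0).map (g : E →ₗ[ℝ] E) = _
    rw [hP 0, ← hg0, ← mapspan]
    exact congrArg _ (span_smul (c := α⁻¹) (inv_ne_zero hα) (by rw [smul_smul, inv_mul_cancel₀ hα, one_smul]))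
  · show (P 1).map (g : E →ₗ[ℝ] E) = _
    rw [hP 1, ← hg1, ← mapspan]
    exact congrArg _ (span_smul (c := β⁻¹) (inv_ne_zero hβ) (by rw [smul_smul, inv_mul_cancel₀ hβ, one_smul]))
  · show (P 2).map (g : E →ₗ[ℝ] E) = _
    rw [hP 2, ← hg2, ← mapspan]
    exact congrArg _ (span_smul (c := γ⁻¹) (inv_ne_zero hγ) (by rw [smul_smul, inv_mul_cancel₀ hγ, one_smul]))
  · show (P 3).map (g : E →ₗ[ℝ] E) = _
    rw [hP 3, ← hg3, ← mapspan]

theorem regular : IsRegular 4 I0 := by
  constructor
  · intro i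
    rw [Set.ncard_eq_toFinset_card']
    revert i
    decide +kernel
  · intro j
    rw [Set.ncard_eq_toFinset_card']
    revert j
    decide +kernel

/-- There is a rigid `(21_4)` configuration: an incidence structure with 21 points and 21
lines, each point on exactly 4 lines and each line through exactly 4 points, that has a
geometric realization in the real projective plane and all of whose geometric realizations
are projectively equivalent. -/
theorem result : ∃ I : Fin 21 → Fin 21 → Prop, IsRegular 4 I ∧ IsRigid I := by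
  refine ⟨I0, regular, ⟨_, _, standard⟩, ?_⟩
  intro P L P' L' H H'
  obtain ⟨g, hg1, hg2⟩ := normalize H
  obtain ⟨g', hg1', hg2'⟩ := normalize H'
  have back : ∀ (S T : Submodule ℝ E), S.map (g : E →ₗ[ℝ] E) = T.map (g' : E →ₗ[ℝ] E) →
      S.map ((g.trans g'.symm : E ≃ₗ[ℝ] E) : E →ₗ[ℝ] E) = T := by
    intro S T h
    have h1 : ((g.trans g'.symm : E ≃ₗ[ℝ] E) : E →ₗ[ℝ] E) =
        (g'.symm : E →ₗ[ℝ] E).comp (g : E →ₗ[ℝ] E) := rfl
    rw [h1, Submodule.map_comp, h, ← Submodule.map_comp]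
    have h2 : (g'.symm : E →ₗ[ℝ] E).comp (g' : E →ₗ[ℝ] E) = LinearMap.id := by
      ext v; simp
    rw [h2, Submodule.map_id]
  exact ⟨g.trans g'.symm, fun i => back _ _ ((hg1 i).trans (hg1' i).symm),
    fun j => back _ _ ((hg2 j).trans (hg2' j).symm)⟩

end Pool.Agent.Results.MP_409c19_co.RigidConfiguration

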